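import Mathlib

/-!
# An odd integer beyond 1155 with perfect deficiency at most 10

The perfect deficiency of `n` is what remains of `n` after the divisors of `n`, in increasing order,
are subtracted from it as long as possible. We show that the odd integer
`815634435 = 3 * 5 * 7 * 11 * 547 * 1291` has perfect deficiency `6`.
-/

set_option autoImplicit false

namespace Pool.Agent.Results.MP_7acd66_nt.OddTermBeyond1155

/-- One step of the subtraction: the remainder `r` becomes `r - d` if `d ≤ r` and is kept otherwise. -/
def step (r d : ℕ) : ℕ := if d ≤ r then r - d else r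

/-- The perfect deficiency of `n`: start with `n` and treat the divisors of `n`, listed in increasing
order, one after the other. -/
def pd (n : ℕ) : ℕ := ((n.divisors).sort (· ≤ ·)).foldl step n

/-- the divisors of `815634435` in increasing order -/
def L : List ℕ :=
  [1, 3, 5, 7, 11, 15, 21, 33, 35, 55, 77, 105, 165, 231, 385, 547, 1155, 1291, 1641, 2735,
    3829, 3873, 6017, 6455, 8205, 9037, 11487, 14201, 18051, 19145, 19365, 27111, 30085,
    42119, 42603, 45185, 57435, 71005, 90255, 99407, 126357, 135555, 210595, 213015, 298221,
    497035, 631785, 706177, 1491105, 2118531, 3530885, 4943239, 7767947, 10592655, 14829717,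
    23303841, 24716195, 38839735, 54375629, 74148585, 116519205, 163126887, 271878145,
    815634435]

theorem L_card : L.toFinset.card = 64 := by decide

theorem L_sub : L.toFinset ⊆ (815634435 : ℕ).divisors := by
  intro d hd
  rw [List.mem_toFinset] at hd
  rw [Nat.mem_divisors]
  refine ⟨?_, by norm_num⟩
  have h : ∀ d ∈ L, 815634435 % d = 0 := by decide
  exact Nat.dvd_of_mod_eq_zero (h d hd)

theorem card_divisors' : (815634435 : ℕ).divisors.card = 64 := by
  have h3 : Nat.Prime 3 := by norm_num
  have h5 : Nat.Prime 5 := by norm_num
  have h7 : Nat.Prime 7 := by norm_num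
  have h11 : Nat.Prime 11 := by norm_num
  have h547 : Nat.Prime 547 := by norm_num
  have h1291 : Nat.Prime 1291 := by norm_num
  have key : ∀ p : ℕ, p.Prime → p.divisors.card = 2 := by
    intro p hp
    rw [hp.divisors, Finset.card_pair hp.one_lt.ne]
  have e : (815634435 : ℕ) = 3 * (5 * (7 * (11 * (547 * 1291)))) := by norm_num
  rw [e, Nat.Coprime.card_divisors_mul (by norm_num), Nat.Coprime.card_divisors_mul (by norm_num),
    Nat.Coprime.card_divisors_mul (by norm_num), Nat.Coprime.card_divisors_mul (by norm_num),
    Nat.Coprime.card_divisors_mul (by norm_num), key 3 h3, key 5 h5, key 7 h7, key 11 h11,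
    key 547 h547, key 1291 h1291]

theorem divisors_eq : (815634435 : ℕ).divisors = L.toFinset := by
  refine (Finset.eq_of_subset_of_card_le L_sub ?_).symm
  rw [card_divisors', L_card]

theorem sort_eq : ((815634435 : ℕ).divisors).sort (· ≤ ·) = L := by
  rw [divisors_eq]
  refine (List.toFinset_sort (· ≤ ·) ?_).2 ?_
  · decide +kernel
  · decide +kernel

/-- The odd integer `815634435 > 1155` has perfect deficiency `6`, so `1155` is not the largest odd
positive integer with perfect deficiency at most `10`. -/
theorem result : pd 815634435 = 6 ∧
    ¬ ∀ n : ℕ, Odd n → pd n ≤ 10 → n ≤ 1155 := by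
  have h : pd 815634435 = 6 := by
    unfold pd
    rw [sort_eq]
    decide +kernel
  refine ⟨h, fun H => ?_⟩
  have := H 815634435 ⟨407817217, by norm_num⟩ (by rw [h]; norm_num)
  norm_num at this

end Pool.Agent.Results.MP_7acd66_nt.OddTermBeyond1155
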